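import Mathlib

/-!
The space of null families indexed by pairs of naturals: unit vectors, expansions and the
summability of the coefficients of functionals.
-/

set_option autoImplicit false

namespace Pool.Agent.H28.Sum

open Filter Topology

/-- null families indexed by pairs of naturals -/
abbrev V : Type := ZeroAtInftyContinuousMap (ℕ × ℕ) ℝ

/-- the space of the counterexample -/
abbrev X : Type := V × ℝ × ℝ

/-- unit vectors -/
noncomputable def del (p : ℕ × ℕ) : V where
  toFun := fun q => if q = p then 1 else 0
  continuous_toFun := continuous_of_discreteTopology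
  zero_at_infty' := by
    rw [cocompact_eq_cofinite]
    apply tendsto_const_nhds.congr'
    rw [EventuallyEq, eventually_cofinite]
    apply (Set.finite_singleton p).subset
    intro q hq
    by_contra hcon
    apply hq
    have : ¬ q = p := fun h => hcon (Set.mem_singleton_iff.2 h)
    simp [this]

theorem del_apply (p q : ℕ × ℕ) : del p q = if q = p then 1 else 0 := rfl

theorem norm_le_of (v : V) (C : ℝ) (hC : 0 ≤ C) (h : ∀ p, |v p| ≤ C) : ‖v‖ ≤ C := by
  rw [← ZeroAtInftyContinuousMap.norm_toBCF_eq_norm]
  rw [BoundedContinuousFunction.norm_le hC]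
  intro p
  exact h p

theorem sum_apply (F : Finset (ℕ × ℕ)) (c : ℕ × ℕ → ℝ) (q : ℕ × ℕ) :
    (∑ p ∈ F, c p • del p) q = if q ∈ F then c q else 0 := by
  classical
  induction F using Finset.induction_on with
  | empty => simp
  | insert a s ha ih =>
    rw [Finset.sum_insert ha]
    show (c a • del a) q + (∑ p ∈ s, c p • del p) q = _
    rw [ih]
    show c a * (del a q) + _ = _
    rw [del_apply]
    by_cases h1 : q = a
    · subst h1
      simp [ha]
    · by_cases h2 : q ∈ s
      · simp [h1, h2]
      · simp [h1, h2]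

/-- coefficients of a functional are summable -/
theorem summable_coeff (f : V →L[ℝ] ℝ) : Summable (fun p => |f (del p)|) := by
  apply summable_of_sum_le (c := ‖f‖) (fun p => abs_nonneg _)
  intro F
  let g : V := ∑ p ∈ F, (SignType.sign (f (del p)) : ℝ) • del p
  have h1 : f g = ∑ p ∈ F, |f (del p)| := by
    show f (∑ p ∈ F, (SignType.sign (f (del p)) : ℝ) • del p) = _
    rw [map_sum]
    apply Finset.sum_congr rfl
    intro p _
    rw [map_smul, smul_eq_mul, sign_mul_self]
  have h2 : ‖g‖ ≤ 1 := by
    apply norm_le_of g 1 zero_le_one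
    intro q
    show |(∑ p ∈ F, (SignType.sign (f (del p)) : ℝ) • del p) q| ≤ 1
    rw [sum_apply]
    split_ifs
    · rcases lt_trichotomy (f (del q)) 0 with h | h | h
      · simp [sign_neg h]
      · simp [h]
      · simp [sign_pos h]
    · simp
  calc ∑ p ∈ F, |f (del p)| = f g := h1.symm
    _ ≤ |f g| := le_abs_self _
    _ ≤ ‖f‖ * ‖g‖ := f.le_opNorm g
    _ ≤ ‖f‖ * 1 := mul_le_mul_of_nonneg_left h2 (norm_nonneg f)
    _ = ‖f‖ := mul_one _

theorem hasSum_del (v : V) : HasSum (fun p => v p • del p) v := by
  rw [HasSum]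
  simp only [SummationFilter.unconditional_filter]
  rw [Metric.tendsto_atTop]
  intro ε hε
  have h1 : ∀ᶠ p in cofinite, |v p| < ε / 2 := by
    have h2 := v.zero_at_infty'
    rw [cocompact_eq_cofinite] at h2
    have h3 := (Metric.tendsto_nhds.1 h2) (ε / 2) (by positivity)
    filter_upwards [h3] with p hp
    rw [Real.dist_eq, sub_zero] at hp
    exact hp
  rw [eventually_cofinite] at h1
  refine ⟨h1.toFinset, fun F hF => ?_⟩
  rw [dist_eq_norm]
  refine lt_of_le_of_lt (norm_le_of _ (ε / 2) (by positivity) ?_) (by linarith)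
  intro q
  show |(∑ p ∈ F, v p • del p) q - v q| ≤ ε / 2
  rw [sum_apply]
  by_cases hq : q ∈ F
  · simp only [hq, if_true, sub_self, abs_zero]
    positivity
  · have h4 : q ∉ h1.toFinset := fun h => hq (hF h)
    rw [Set.Finite.mem_toFinset] at h4
    simp only [Set.mem_ofPred_eq, not_not] at h4
    simp only [hq, if_false, zero_sub, abs_neg]
    exact h4.le

/-- evaluation at a point -/
noncomputable def ev (p : ℕ × ℕ) : V →L[ℝ] ℝ :=
  LinearMap.mkContinuous
    { toFun := fun v => v p
      map_add' := fun _ _ => rfl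
      map_smul' := fun _ _ => rfl } 1 (by
    intro v
    rw [one_mul]
    show ‖v p‖ ≤ ‖v‖
    rw [← ZeroAtInftyContinuousMap.norm_toBCF_eq_norm]
    exact BoundedContinuousFunction.norm_coe_le_norm v.toBCF p)

theorem ev_apply (p : ℕ × ℕ) (v : V) : ev p v = v p := rfl

/-- rows of null families are null sequences -/
theorem row_tendsto (v : V) (i : ℕ) : Tendsto (fun n => v (i, n)) atTop (𝓝 0) := by
  have h := v.zero_at_infty'
  rw [cocompact_eq_cofinite] at h
  have h2 : Tendsto (fun n : ℕ => (i, n)) atTop cofinite := by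
    rw [← Nat.cofinite_eq_atTop]
    exact Function.Injective.tendsto_cofinite (fun a b hab => (Prod.mk.inj hab).2)
  exact h.comp h2

end Pool.Agent.H28.Sum
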