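import Pool.Agent.H28.Sum.Seed

/-!
Elements with prescribed coordinates.
-/

set_option autoImplicit false

namespace Pool.Agent.H28.Sum

open Filter Topology

/-- functionals from their components -/
noncomputable def mkF (f : V →L[ℝ] ℝ) (b r : ℝ) : X →L[ℝ] ℝ :=
  f.comp (ContinuousLinearMap.fst ℝ V (ℝ × ℝ)) +
    (b • ((ContinuousLinearMap.fst ℝ ℝ ℝ).comp (ContinuousLinearMap.snd ℝ V (ℝ × ℝ))) +
      r • ((ContinuousLinearMap.snd ℝ ℝ ℝ).comp (ContinuousLinearMap.snd ℝ V (ℝ × ℝ))))

theorem mkF_apply (f : V →L[ℝ] ℝ) (b r : ℝ) (x : X) :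
    mkF f b r x = f x.1 + (b * x.2.1 + r * x.2.2) := rfl

theorem mkF_yc (f : V →L[ℝ] ℝ) (b r : ℝ) (p : ℕ × ℕ) : yc (mkF f b r) p = f (del p) := by
  unfold yc
  rw [mkF_apply, inV_apply]
  simp

theorem mkF_be (f : V →L[ℝ] ℝ) (b r : ℝ) : be (mkF f b r) = b := by
  unfold be
  rw [mkF_apply]
  simp

theorem mkF_rr (f : V →L[ℝ] ℝ) (b r : ℝ) : rr (mkF f b r) = r := by
  unfold rr
  rw [mkF_apply]
  simp

theorem sum_ev_del (F : Finset (ℕ × ℕ)) (c : ℕ × ℕ → ℝ) (q : ℕ × ℕ) :
    (∑ p ∈ F, c p • ev p) (del q) = if q ∈ F then c q else 0 := by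
  classical
  rw [_root_.sum_apply]
  have : ∀ p ∈ F, (c p • ev p) (del q) = if q = p then c p else 0 := by
    intro p _
    show c p * ev p (del q) = _
    rw [ev_apply, del_apply]
    by_cases h : q = p
    · subst h
      simp
    · have h' : ¬ p = q := fun e => h e.symm
      simp [h, h']
  rw [Finset.sum_congr rfl this, Finset.sum_ite_eq]

/-- elements with prescribed coordinates -/
theorem exists_data (s : ℕ → ℝ) (M : ℕ) (hM : ∀ i, M ≤ i → s i = 0) (a t r : ℝ) :
    ∃ w, HasData w s a t r := by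
  classical
  let F : Finset (ℕ × ℕ) := (Finset.range M) ×ˢ {0}
  have hF : ∀ i n, (i, n) ∈ F ↔ i < M ∧ n = 0 := by
    intro i n
    simp only [F, Finset.mem_product, Finset.mem_range, Finset.mem_singleton]
  let v : V := ∑ p ∈ F, (-s p.1) • del p
  let f : V →L[ℝ] ℝ := ∑ p ∈ F, (s p.1) • ev p
  have hv : ∀ i n, v (i, n) = if n = 0 then -s i else 0 := by
    intro i n
    show (∑ p ∈ F, (-s p.1) • del p) (i, n) = _
    rw [sum_apply F (fun p => -s p.1) (i, n)]
    by_cases hn : n = 0
    · by_cases hi : i < M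
      · rw [if_pos ((hF i n).2 ⟨hi, hn⟩), if_pos hn]
      · rw [if_neg (fun h => hi ((hF i n).1 h).1), if_pos hn, hM i (not_lt.1 hi), neg_zero]
    · rw [if_neg (fun h => hn ((hF i n).1 h).2), if_neg hn]
  have hf : ∀ i n, f (del (i, n)) = if n = 0 then s i else 0 := by
    intro i n
    show (∑ p ∈ F, (s p.1) • ev p) (del (i, n)) = _
    rw [sum_ev_del F (fun p => s p.1) (i, n)]
    by_cases hn : n = 0
    · by_cases hi : i < M
      · rw [if_pos ((hF i n).2 ⟨hi, hn⟩), if_pos hn]
      · rw [if_neg (fun h => hi ((hF i n).1 h).1), if_pos hn, hM i (not_lt.1 hi)]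
    · rw [if_neg (fun h => hn ((hF i n).1 h).2), if_neg hn]
  refine ⟨((v, a, t), mkF f a r), ?_, ?_, rfl, mkF_be f a r, rfl, mkF_rr f a r⟩
  · intro i n
    show v (i, n) - v (i, n + 1) + yc (mkF f a r) (i, n) + yc (mkF f a r) (i, n + 1) = 0
    rw [mkF_yc, mkF_yc, hv, hv, hf, hf]
    by_cases hn : n = 0
    · simp [hn]
    · simp [hn]
  · intro i
    show (yc (mkF f a r) (i, 0) - v (i, 0)) / 2 = s i
    rw [mkF_yc, hv, hf]
    simp

/-- the elements of the isotropic part -/
noncomputable def uu (i n : ℕ) (θ : ℝ) : X × (X →L[ℝ] ℝ) :=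
  ((θ • (del (i, n) + del (i, n + 1)), 0, 0), mkF (θ • (ev (i, n) - ev (i, n + 1))) 0 0)

theorem uu_data (i n : ℕ) (θ : ℝ) : HasData (uu i n θ) (fun _ => 0) 0 0 0 := by
  have hv : ∀ j m, (uu i n θ).1.1 (j, m) =
      θ * ((if (j, m) = (i, n) then 1 else 0) + (if (j, m) = (i, n + 1) then 1 else 0)) :=
    fun j m => rfl
  have hf : ∀ j m, yc (uu i n θ).2 (j, m) =
      θ * ((if (i, n) = (j, m) then 1 else 0) - (if (i, n + 1) = (j, m) then 1 else 0)) := by
    intro j m
    show yc (mkF (θ • (ev (i, n) - ev (i, n + 1))) 0 0) (j, m) = _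
    rw [mkF_yc]
    rfl
  refine ⟨?_, ?_, rfl, mkF_be _ _ _, rfl, mkF_rr _ _ _⟩
  · intro j m
    rw [hv, hv, hf, hf]
    simp only [Prod.mk.injEq]
    by_cases hj : j = i
    · subst hj
      rcases lt_trichotomy m n with h | h | h
      · by_cases h2 : m + 1 = n
        · subst h2
          have e1 : ¬ m = m + 1 + 1 := by omega
          have e2 : ¬ m + 1 + 1 = m := by omega
          simp [e1, e2]
        · have e1 : ¬ m = n := by omega
          have e2 : ¬ m = n + 1 := by omega
          have e3 : ¬ n = m := by omega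
          have e4 : ¬ n + 1 = m := by omega
          have e5 : ¬ n = m + 1 := by omega
          simp [e1, e2, e3, e4, h2, e5]
      · subst h
        simp
      · by_cases h2 : m = n + 1
        · subst h2
          have e1 : ¬ n = n + 1 + 1 := by omega
          have e2 : ¬ n + 1 + 1 = n := by omega
          simp [e1, e2]
        · have e1 : ¬ m = n := by omega
          have e3 : ¬ n = m := by omega
          have e4 : ¬ n + 1 = m := by omega
          have e5 : ¬ n = m + 1 := by omega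
          have e6 : ¬ m + 1 = n := by omega
          simp [e1, h2, e3, e4, e5, e6]
    · have hj' : ¬ i = j := fun h => hj h.symm
      simp [hj, hj']
  · intro j
    show (yc (uu i n θ).2 (j, 0) - (uu i n θ).1.1 (j, 0)) / 2 = 0
    rw [hv, hf]
    simp only [Prod.mk.injEq]
    by_cases hj : j = i
    · subst hj
      by_cases hn : n = 0
      · simp [hn]
      · have : ¬ 0 = n := fun h => hn h.symm
        simp [hn, this]
    · have hj' : ¬ i = j := fun h => hj h.symm
      simp [hj, hj']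

theorem uu_mem (i n : ℕ) (θ : ℝ) : uu i n θ ∈ T0 :=
  ⟨_, _, _, _, PP.zero 0 (by norm_num) (by norm_num), uu_data i n θ⟩

end Pool.Agent.H28.Sum
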