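import Pool.Agent.H28.Sum.Slab

/-!
The counterexample.
-/

set_option autoImplicit false

namespace Pool.Agent.H28.Sum

open Filter Topology

/-- the normal cone operator of the hyperplane where the last coordinate vanishes -/
def NV (x : X) : Set (X →L[ℝ] ℝ) := {f | x.2.2 = 0 ∧ ∀ v : X, v.2.2 = 0 → f v = 0}

theorem NV_linear : ∃ S : Submodule ℝ (X × (X →L[ℝ] ℝ)),
    ∀ (x : X) (f : X →L[ℝ] ℝ), f ∈ NV x ↔ (x, f) ∈ S := by
  refine ⟨{ carrier := {w | w.1.2.2 = 0 ∧ ∀ v : X, v.2.2 = 0 → w.2 v = 0}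
            add_mem' := ?_, zero_mem' := ?_, smul_mem' := ?_ }, fun x f => Iff.rfl⟩
  · rintro a b ⟨ha, ha'⟩ ⟨hb, hb'⟩
    refine ⟨?_, fun v hv => ?_⟩
    · show a.1.2.2 + b.1.2.2 = 0
      rw [ha, hb, add_zero]
    · show a.2 v + b.2 v = 0
      rw [ha' v hv, hb' v hv, add_zero]
  · exact ⟨rfl, fun v _ => rfl⟩
  · rintro c a ⟨ha, ha'⟩
    refine ⟨?_, fun v hv => ?_⟩
    · show c * a.1.2.2 = 0
      rw [ha, mul_zero]
    · show c * a.2 v = 0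
      rw [ha' v hv, mul_zero]

theorem NV_mono (x y : X) (f g : X →L[ℝ] ℝ) (hf : f ∈ NV x) (hg : g ∈ NV y) :
    0 ≤ (f - g) (x - y) := by
  have h1 : (x - y).2.2 = 0 := by
    show x.2.2 - y.2.2 = 0
    rw [hf.1, hg.1, sub_zero]
  show 0 ≤ f (x - y) - g (x - y)
  rw [hf.2 _ h1, hg.2 _ h1, sub_zero]

theorem NV_max (x : X) (f : X →L[ℝ] ℝ)
    (h : ∀ (y : X) (g : X →L[ℝ] ℝ), g ∈ NV y → 0 ≤ (f - g) (x - y)) : f ∈ NV x := by
  have hx : x.2.2 = 0 := by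
    by_contra hx
    have h1 := h 0 (mkF 0 0 ((f x + 1) / x.2.2)) ⟨rfl, fun v hv => by
      rw [mkF_apply, hv]
      simp⟩
    rw [sub_zero] at h1
    have h2 : (f - mkF 0 0 ((f x + 1) / x.2.2)) x = -1 := by
      show f x - mkF 0 0 ((f x + 1) / x.2.2) x = -1
      rw [mkF_apply, div_mul_cancel₀ _ hx]
      simp
    rw [h2] at h1
    linarith
  refine ⟨hx, fun v hv => ?_⟩
  have h1 : ∀ θ : ℝ, 0 ≤ θ * f v := by
    intro θ
    have h2 := h (x - θ • v) 0 ⟨by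
      show x.2.2 - θ * v.2.2 = 0
      rw [hx, hv, mul_zero, sub_zero], fun _ _ => rfl⟩
    have h3 : 0 ≤ f (x - (x - θ • v)) - 0 := h2
    rw [sub_sub_cancel, map_smul, smul_eq_mul, sub_zero] at h3
    exact h3
  have h3 := h1 1
  have h4 := h1 (-1)
  linarith

/-- the test point -/
noncomputable def x0 : X := (0, 1, 0)

noncomputable def f0 : X →L[ℝ] ℝ := mkF 0 1 0

/-- the slab part of a set of elements related to the seed set consists of isotropic elements -/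
theorem slab_pair {w : X × (X →L[ℝ] ℝ)} (h : Rel w) (ht : |w.1.2.2| < 1) :
    w.2 w.1 = 0 ∧ w.1.2.1 = 0 ∧ be w.2 = 0 := by
  obtain ⟨hN, hs, ha, hb, ht', hr⟩ := h.slab ht
  have h1 := (pairing w hN).1
  simp_rw [hs] at h1
  rw [ha, hb, hr] at h1
  have h2 : HasSum (fun _ : ℕ => (0 : ℝ) ^ 2) 0 := by
    have : (fun _ : ℕ => (0 : ℝ) ^ 2) = fun _ => 0 := by
      funext i
      ring
    rw [this]
    exact hasSum_zero
  have h3 := h1.unique h2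
  refine ⟨?_, ha, hb⟩
  linarith

theorem test_pair {w : X × (X →L[ℝ] ℝ)} (h : Rel w) (ht : |w.1.2.2| < 1) :
    (f0 - w.2) (x0 - w.1) = 1 := by
  obtain ⟨h1, h2, h3⟩ := slab_pair h ht
  show f0 (x0 - w.1) - w.2 (x0 - w.1) = 1
  rw [map_sub, map_sub, h1]
  have e1 : f0 x0 = 1 := by
    unfold f0 x0
    rw [mkF_apply]
    simp
  have e2 : f0 w.1 = 0 := by
    unfold f0
    rw [mkF_apply, h2]
    simp
  have e3 : w.2 x0 = 0 := h3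
  rw [e1, e2, e3]
  ring

theorem counterexample :
    ¬ (∀ (X : Type) [NormedAddCommGroup X] [NormedSpace ℝ X] [CompleteSpace X]
    (A B : X → Set (X →L[ℝ] ℝ)),
    (∃ S : Submodule ℝ (X × (X →L[ℝ] ℝ)), ∀ (x : X) (f : X →L[ℝ] ℝ), f ∈ A x ↔ (x, f) ∈ S) →
    ((∀ (x y : X) (f g : X →L[ℝ] ℝ), f ∈ A x → g ∈ A y → 0 ≤ (f - g) (x - y)) ∧
      (∀ (x : X) (f : X →L[ℝ] ℝ),
        (∀ (y : X) (g : X →L[ℝ] ℝ), g ∈ A y → 0 ≤ (f - g) (x - y)) → f ∈ A x)) →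
    ((∀ (x y : X) (f g : X →L[ℝ] ℝ), f ∈ B x → g ∈ B y → 0 ≤ (f - g) (x - y)) ∧
      (∀ (x : X) (f : X →L[ℝ] ℝ),
        (∀ (y : X) (g : X →L[ℝ] ℝ), g ∈ B y → 0 ≤ (f - g) (x - y)) → f ∈ B x)) →
    (∀ z : X, ∃ t : ℝ, 0 < t ∧ ∃ a b : X, (A a).Nonempty ∧ (B b).Nonempty ∧ z = t • (a - b)) →
    ((∀ (x y : X) (f g : X →L[ℝ] ℝ),
        (∃ f₁ ∈ A x, ∃ f₂ ∈ B x, f = f₁ + f₂) →
        (∃ g₁ ∈ A y, ∃ g₂ ∈ B y, g = g₁ + g₂) → 0 ≤ (f - g) (x - y)) ∧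
      (∀ (x : X) (f : X →L[ℝ] ℝ),
        (∀ (y : X) (g : X →L[ℝ] ℝ), (∃ g₁ ∈ A y, ∃ g₂ ∈ B y, g = g₁ + g₂) →
          0 ≤ (f - g) (x - y)) →
        ∃ f₁ ∈ A x, ∃ f₂ ∈ B x, f = f₁ + f₂))) := by
  intro H
  obtain ⟨T, hT0, hT, hmax⟩ := exists_max
  have hrel : ∀ w ∈ T, Rel w := fun w hw p hp => hT w hw p (hT0 hp)
  have hdom : ∀ t : ℝ, -1 ≤ t → t ≤ 1 → ((((0 : V), (0 : ℝ), t) : X), (0 : X →L[ℝ] ℝ)) ∈ T := by
    intro t h0 h1
    apply hT0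
    refine ⟨_, _, _, _, PP.zero t h0 h1, ?_, ?_, rfl, rfl, rfl, rfl⟩
    · intro i n
      show (0 : ℝ) - 0 + 0 + 0 = 0
      ring
    · intro i
      show ((0 : ℝ) - 0) / 2 = 0
      ring
  have h1 := H X NV (fun x => {f | (x, f) ∈ T}) NV_linear ⟨NV_mono, NV_max⟩
    ⟨fun x y f g hf hg => hT (x, f) hf (y, g) hg,
      fun x f h => hmax (x, f) (fun w' hw' => h w'.1 w'.2 hw')⟩ ?_
  · have hsum : ∀ (y : X) (g : X →L[ℝ] ℝ), (∃ g₁ ∈ NV y, ∃ g₂ ∈ {f | (y, f) ∈ T}, g = g₁ + g₂) →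
        0 ≤ (f0 - g) (x0 - y) := by
      rintro y g ⟨g1, hg1, g2, hg2, rfl⟩
      have hy : y.2.2 = 0 := hg1.1
      have h2 := test_pair (hrel _ hg2) (by
        show |y.2.2| < 1
        rw [hy, abs_zero]
        exact one_pos)
      have h3 : g1 (x0 - y) = 0 := hg1.2 _ (by
        show (0 : ℝ) - y.2.2 = 0
        rw [hy, sub_zero])
      have h4 : (f0 - g2) (x0 - y) = 1 := h2
      have e : (f0 - (g1 + g2)) (x0 - y) = (f0 - g2) (x0 - y) - g1 (x0 - y) := by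
        show f0 (x0 - y) - (g1 (x0 - y) + g2 (x0 - y)) = f0 (x0 - y) - g2 (x0 - y) - g1 (x0 - y)
        ring
      rw [e, h3, h4]
      norm_num
    obtain ⟨f1, hf1, f2, hf2, -⟩ := h1.2 x0 f0 hsum
    have h2 := (slab_pair (hrel _ hf2) (by
      show |(0 : ℝ)| < 1
      rw [abs_zero]
      exact one_pos)).2.1
    have h3 : (1 : ℝ) = 0 := h2
    exact one_ne_zero h3
  · intro z
    rcases lt_trichotomy z.2.2 0 with hz | hz | hz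
    · refine ⟨-z.2.2, by linarith, (-z.2.2)⁻¹ • z + ((0 : V), (0 : ℝ), (1 : ℝ)),
        ((0 : V), (0 : ℝ), (1 : ℝ)), ⟨0, ?_, fun _ _ => rfl⟩,
        ⟨0, hdom 1 (by norm_num) (by norm_num)⟩, ?_⟩
      · show (-z.2.2)⁻¹ * z.2.2 + 1 = 0
        have : z.2.2 ≠ 0 := hz.ne
        field_simp
        ring
      · rw [add_sub_cancel_right, smul_smul, mul_inv_cancel₀ (by linarith), one_smul]
    · refine ⟨1, one_pos, z, ((0 : V), (0 : ℝ), (0 : ℝ)), ⟨0, hz, fun _ _ => rfl⟩,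
        ⟨0, hdom 0 (by norm_num) (by norm_num)⟩, ?_⟩
      rw [one_smul]
      have : (((0 : V), (0 : ℝ), (0 : ℝ)) : X) = 0 := rfl
      rw [this, sub_zero]
    · refine ⟨z.2.2, hz, (z.2.2)⁻¹ • z + ((0 : V), (0 : ℝ), (-1 : ℝ)),
        ((0 : V), (0 : ℝ), (-1 : ℝ)), ⟨0, ?_, fun _ _ => rfl⟩,
        ⟨0, hdom (-1) (by norm_num) (by norm_num)⟩, ?_⟩
      · show (z.2.2)⁻¹ * z.2.2 + -1 = 0
        rw [inv_mul_cancel₀ hz.ne']
        ring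
      · rw [add_sub_cancel_right, smul_smul, mul_inv_cancel₀ hz.ne', one_smul]

end Pool.Agent.H28.Sum
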