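import Pool.Agent.H28.Sum.Basic

/-!
The linear relation and its quadratic form.
-/

set_option autoImplicit false

namespace Pool.Agent.H28.Sum

open Filter Topology

/-- row lemma: partial sums telescope -/
theorem row_partial (v y : ℕ → ℝ) (h : ∀ n, v n - v (n + 1) + y n + y (n + 1) = 0) (M : ℕ) :
    ∑ n ∈ Finset.range M, v n * y n =
      -(((y 0 - v 0) / 2) ^ 2 - ((y M - v M) / 2) ^ 2) ∧
    ∑ n ∈ Finset.range M, y n = (y 0 - v 0) / 2 - (y M - v M) / 2 := by
  induction M with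
  | zero => simp
  | succ M ih =>
    rw [Finset.sum_range_succ, Finset.sum_range_succ, ih.1, ih.2]
    have := h M
    constructor
    · have e : y (M + 1) = v (M + 1) - v M - y M := by linarith
      rw [e]
      ring
    · linarith

theorem row_hasSum (v y : ℕ → ℝ) (h : ∀ n, v n - v (n + 1) + y n + y (n + 1) = 0)
    (hv : Tendsto v atTop (𝓝 0)) (hy : Summable y) (hvy : Summable (fun n => v n * y n)) :
    HasSum (fun n => v n * y n) (-((y 0 - v 0) / 2) ^ 2) ∧ HasSum y ((y 0 - v 0) / 2) := by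
  have hlim : Tendsto (fun n => (y n - v n) / 2) atTop (𝓝 0) := by
    have := (hy.tendsto_atTop_zero.sub hv).div_const 2
    simpa using this
  constructor
  · have h1 := hvy.hasSum.tendsto_sum_nat
    have h2 : Tendsto (fun M => ∑ n ∈ Finset.range M, v n * y n) atTop
        (𝓝 (-(((y 0 - v 0) / 2) ^ 2 - 0 ^ 2))) := by
      simp_rw [fun M => (row_partial v y h M).1]
      exact (tendsto_const_nhds.sub (hlim.pow 2)).neg
    have h3 := tendsto_nhds_unique h1 h2
    have h4 := hvy.hasSum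
    rw [h3] at h4
    convert h4 using 1
    ring
  · have h1 := hy.hasSum.tendsto_sum_nat
    have h2 : Tendsto (fun M => ∑ n ∈ Finset.range M, y n) atTop
        (𝓝 ((y 0 - v 0) / 2 - 0)) := by
      simp_rw [fun M => (row_partial v y h M).2]
      exact tendsto_const_nhds.sub hlim
    have h3 := tendsto_nhds_unique h1 h2
    have h4 := hy.hasSum
    rw [h3] at h4
    convert h4 using 1
    ring

/-- inclusion of the null families -/
noncomputable def inV : V →L[ℝ] X := ContinuousLinearMap.inl ℝ V (ℝ × ℝ)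

theorem inV_apply (v : V) : inV v = (v, 0, 0) := rfl

/-- coefficients of a functional -/
noncomputable def yc (F : X →L[ℝ] ℝ) (p : ℕ × ℕ) : ℝ := F (inV (del p))

/-- the second and third coefficient of a functional -/
noncomputable def be (F : X →L[ℝ] ℝ) : ℝ := F (0, 1, 0)
noncomputable def rr (F : X →L[ℝ] ℝ) : ℝ := F (0, 0, 1)

theorem yc_sub (F G : X →L[ℝ] ℝ) (p : ℕ × ℕ) : yc (F - G) p = yc F p - yc G p := rfl
theorem be_sub (F G : X →L[ℝ] ℝ) : be (F - G) = be F - be G := rfl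
theorem rr_sub (F G : X →L[ℝ] ℝ) : rr (F - G) = rr F - rr G := rfl

theorem F_split (F : X →L[ℝ] ℝ) (x : X) :
    F x = F (inV x.1) + x.2.1 * be F + x.2.2 * rr F := by
  have h : x = inV x.1 + x.2.1 • ((0, 1, 0) : X) + x.2.2 • ((0, 0, 1) : X) := by
    rw [inV_apply]
    ext <;> simp
  conv_lhs => rw [h]
  rw [map_add, map_add, map_smul, map_smul]
  rfl

theorem summable_yc (F : X →L[ℝ] ℝ) : Summable (fun p => |yc F p|) :=
  summable_coeff (F.comp inV)

theorem hasSum_pair (F : X →L[ℝ] ℝ) (v : V) :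
    HasSum (fun p => v p * yc F p) (F (inV v)) := by
  have h := (F.comp inV).hasSum (hasSum_del v)
  have e : (fun p => v p * yc F p) = fun p => (F.comp inV) (v p • del p) := by
    funext p
    rw [map_smul]
    rfl
  rw [e]
  exact h

/-- the linear relation -/
def InN (w : X × (X →L[ℝ] ℝ)) : Prop :=
  ∀ i n : ℕ, w.1.1 (i, n) - w.1.1 (i, n + 1) + yc w.2 (i, n) + yc w.2 (i, n + 1) = 0

/-- the boundary values -/
noncomputable def sg (w : X × (X →L[ℝ] ℝ)) (i : ℕ) : ℝ := (yc w.2 (i, 0) - w.1.1 (i, 0)) / 2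

theorem InN_sub {w w' : X × (X →L[ℝ] ℝ)} (h : InN w) (h' : InN w') : InN (w - w') := by
  intro i n
  have h1 := h i n
  have h2 := h' i n
  show (w.1.1 (i, n) - w'.1.1 (i, n)) - (w.1.1 (i, n + 1) - w'.1.1 (i, n + 1)) +
    (yc w.2 (i, n) - yc w'.2 (i, n)) + (yc w.2 (i, n + 1) - yc w'.2 (i, n + 1)) = 0
  linarith

theorem sg_sub (w w' : X × (X →L[ℝ] ℝ)) (i : ℕ) : sg (w - w') i = sg w i - sg w' i := by
  show ((yc w.2 (i, 0) - yc w'.2 (i, 0)) - (w.1.1 (i, 0) - w'.1.1 (i, 0))) / 2 =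
    (yc w.2 (i, 0) - w.1.1 (i, 0)) / 2 - (yc w'.2 (i, 0) - w'.1.1 (i, 0)) / 2
  ring

theorem pairing (w : X × (X →L[ℝ] ℝ)) (hw : InN w) :
    HasSum (fun i => (sg w i) ^ 2) (w.1.2.1 * be w.2 + w.1.2.2 * rr w.2 - w.2 w.1) ∧
      Summable (fun i => |sg w i|) := by
  have hp := hasSum_pair w.2 w.1.1
  have hy := summable_yc w.2
  have hrow := fun i : ℕ => row_hasSum (fun n => w.1.1 (i, n)) (fun n => yc w.2 (i, n)) (hw i)
    (row_tendsto w.1.1 i) (hy.of_abs.prod_factor i) (hp.summable.prod_factor i)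
  constructor
  · have h1 := hp.prod_fiberwise (fun i => (hrow i).1)
    have h2 := h1.neg
    have e := F_split w.2 w.1
    have e2 : w.1.2.1 * be w.2 + w.1.2.2 * rr w.2 - w.2 w.1 = -w.2 (inV w.1.1) := by linarith
    have e3 : (fun i => (sg w i) ^ 2) =
        fun i => - (-((yc w.2 (i, 0) - w.1.1 (i, 0)) / 2) ^ 2) := by
      funext i
      rw [neg_neg]
      rfl
    rw [e2, e3]
    exact h2
  · have h1 := hy.prod
    apply Summable.of_nonneg_of_le (fun i => abs_nonneg _) _ h1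
    intro i
    have h2 := (hrow i).2
    have h3 : sg w i = ∑' n, yc w.2 (i, n) := h2.tsum_eq.symm
    rw [h3]
    have h4 : Summable (fun n => ‖yc w.2 (i, n)‖) := hy.prod_factor i
    exact norm_tsum_le_tsum_norm h4

end Pool.Agent.H28.Sum
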