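import Pool.Agent.H28.Sum.Elem

/-!
Elements monotonically related to the seed set.
-/

set_option autoImplicit false

namespace Pool.Agent.H28.Sum

open Filter Topology

/-- monotonically related to the seed set -/
def Rel (w : X × (X →L[ℝ] ℝ)) : Prop := ∀ p ∈ T0, 0 ≤ (w.2 - p.2) (w.1 - p.1)

theorem uu_rel (w : X × (X →L[ℝ] ℝ)) (i n : ℕ) (θ : ℝ) :
    (w.2 - (uu i n θ).2) (w.1 - (uu i n θ).1) = w.2 w.1 -
      θ * (w.1.1 (i, n) - w.1.1 (i, n + 1) + yc w.2 (i, n) + yc w.2 (i, n + 1)) := by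
  have h1 : w.2 (uu i n θ).1 = θ * (yc w.2 (i, n) + yc w.2 (i, n + 1)) := by
    have e : (uu i n θ).1 = θ • (inV (del (i, n)) + inV (del (i, n + 1))) := by
      rw [← map_add, ← map_smul]
      rfl
    rw [e, map_smul, map_add]
    rfl
  have h2 : (uu i n θ).2 w.1 = θ * (w.1.1 (i, n) - w.1.1 (i, n + 1)) := by
    show mkF (θ • (ev (i, n) - ev (i, n + 1))) 0 0 w.1 = _
    rw [mkF_apply]
    show θ * (w.1.1 (i, n) - w.1.1 (i, n + 1)) + (0 * _ + 0 * _) = _
    ring
  have h3 : (uu i n θ).2 (uu i n θ).1 = 0 := by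
    show mkF (θ • (ev (i, n) - ev (i, n + 1))) 0 0 (θ • (del (i, n) + del (i, n + 1)), 0, 0) = 0
    rw [mkF_apply]
    show θ * (θ * (del (i, n) (i, n) + del (i, n + 1) (i, n)) -
      θ * (del (i, n) (i, n + 1) + del (i, n + 1) (i, n + 1))) + (0 * _ + 0 * _) = 0
    simp only [del_apply, Prod.mk.injEq]
    simp
  show (w.2 (w.1 - (uu i n θ).1) - (uu i n θ).2 (w.1 - (uu i n θ).1)) = _
  rw [map_sub, map_sub, h1, h2, h3]
  ring

theorem Rel.inN {w : X × (X →L[ℝ] ℝ)} (h : Rel w) : InN w := by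
  intro i n
  by_contra hc
  set c := w.1.1 (i, n) - w.1.1 (i, n + 1) + yc w.2 (i, n) + yc w.2 (i, n + 1) with hcdef
  have h1 := h _ (uu_mem i n ((w.2 w.1 + 1) / c))
  rw [uu_rel, ← hcdef, div_mul_cancel₀ _ hc] at h1
  linarith

theorem abs_ee_le (i : ℕ) : |ee i| ≤ 1 := by
  rw [abs_of_pos (ee_pos i)]
  exact ee_le_one i

theorem summable_sg_ee {w : X × (X →L[ℝ] ℝ)} (h : InN w) :
    Summable (fun i => sg w i * ee i) := by
  have h1 := (pairing w h).2
  apply Summable.of_norm_bounded h1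
  intro i
  rw [norm_mul, Real.norm_eq_abs, Real.norm_eq_abs]
  calc |sg w i| * |ee i| ≤ |sg w i| * 1 :=
        mul_le_mul_of_nonneg_left (abs_ee_le i) (abs_nonneg _)
    _ = |sg w i| := mul_one _

/-- relation to an element with finitely supported coordinates -/
theorem rel_data {w p : X × (X →L[ℝ] ℝ)} (h : Rel w) {s : ℕ → ℝ} {a t r : ℝ}
    (hP : PP s a t r) (hp : HasData p s a t r) (M : ℕ) (hM : ∀ i, M ≤ i → s i = 0)
    (Q : ℝ) (hQ : HasSum (fun i => (sg w i) ^ 2) Q) :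
    0 ≤ (w.1.2.1 - a) * (be w.2 - a) + (w.1.2.2 - t) * (rr w.2 - r) - Q +
      2 * (∑ i ∈ Finset.range M, s i * sg w i) - ∑ i ∈ Finset.range M, (s i) ^ 2 := by
  have h0 := h p ⟨s, a, t, r, hP, hp⟩
  obtain ⟨hN, hs, ha, hb, ht, hr⟩ := hp
  have h1 := rel_form h.inN hN
  rw [ha, hb, ht, hr] at h1
  simp_rw [hs] at h1
  have h2 : HasSum (fun i => s i * sg w i) (∑ i ∈ Finset.range M, s i * sg w i) := by
    apply hasSum_sum_of_ne_finset_zero
    intro i hi
    rw [Finset.mem_range, not_lt] at hi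
    rw [hM i hi, zero_mul]
  have h3 : HasSum (fun i => (s i) ^ 2) (∑ i ∈ Finset.range M, (s i) ^ 2) := by
    apply hasSum_sum_of_ne_finset_zero
    intro i hi
    rw [Finset.mem_range, not_lt] at hi
    rw [hM i hi]
    ring
  have h4 := (hQ.sub (h2.mul_left 2)).add h3
  have e : (fun i => (sg w i - s i) ^ 2) =
      fun i => (sg w i) ^ 2 - 2 * (s i * sg w i) + (s i) ^ 2 := by
    funext i
    ring
  rw [e] at h1
  have h5 := h1.unique h4
  linarith

theorem two_pow_tendsto : Tendsto (fun k : ℕ => (2 : ℝ) ^ k) atTop atTop :=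
  tendsto_pow_atTop_atTop_of_one_lt (by norm_num)

/-- the asymptotic condition -/
theorem Rel.sum_eq {w : X × (X →L[ℝ] ℝ)} (h : Rel w) :
    w.1.2.1 + be w.2 = 2 * ∑' i, sg w i * ee i := by
  have hN := h.inN
  have hQ := (pairing w hN).1
  set Q := w.1.2.1 * be w.2 + w.1.2.2 * rr w.2 - w.2 w.1
  have hE := (summable_sg_ee hN).hasSum
  set E := ∑' i, sg w i * ee i
  set a := w.1.2.1
  set b := be w.2
  set t := w.1.2.2
  set r := rr w.2
  -- the averages
  let hk : ℕ → ℝ := fun k => 2 * (∑ i ∈ Finset.range (mm k), ee i * sg w i) - kap k * (a + b)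
  have hk_lim : Tendsto hk atTop (𝓝 (2 * E - 1 * (a + b))) := by
    apply Tendsto.sub
    · apply Tendsto.const_mul
      have h1 := hE.tendsto_sum_nat.comp mm_tendsto
      apply h1.congr
      intro k
      show ∑ i ∈ Finset.range (mm k), sg w i * ee i = _
      exact Finset.sum_congr rfl (fun i _ => mul_comm _ _)
    · exact kap_tendsto.mul_const _
  let C : ℝ := |a * b - Q| + (|t| + 2) * (|r| + 1)
  have hC : 0 ≤ C := by positivity
  have hCk : ∀ σ : ℝ, |σ| = 1 → ∀ k : ℕ,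
      (t - σ * (1 + (1 / 2) ^ k)) * (r - σ * (1 / 2) ^ k) ≤ (|t| + 2) * (|r| + 1) := by
    intro σ hσ k
    have h1 := half_pow_pos k
    have h2 : (1 / 2 : ℝ) ^ k ≤ 1 := pow_le_one₀ (by norm_num) (by norm_num)
    have e1 : |t - σ * (1 + (1 / 2) ^ k)| ≤ |t| + 2 := by
      calc |t - σ * (1 + (1 / 2) ^ k)| ≤ |t| + |σ * (1 + (1 / 2) ^ k)| := abs_sub _ _
        _ = |t| + (1 + (1 / 2) ^ k) := by
            rw [abs_mul, hσ, one_mul, abs_of_pos (show (0 : ℝ) < 1 + (1 / 2) ^ k by linarith)]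
        _ ≤ |t| + 2 := by linarith
    have e2 : |r - σ * (1 / 2) ^ k| ≤ |r| + 1 := by
      calc |r - σ * (1 / 2) ^ k| ≤ |r| + |σ * (1 / 2) ^ k| := abs_sub _ _
        _ = |r| + (1 / 2) ^ k := by rw [abs_mul, hσ, one_mul, abs_of_pos h1]
        _ ≤ |r| + 1 := by linarith
    calc _ ≤ |(t - σ * (1 + (1 / 2) ^ k)) * (r - σ * (1 / 2) ^ k)| := le_abs_self _
      _ = |t - σ * (1 + (1 / 2) ^ k)| * |r - σ * (1 / 2) ^ k| := abs_mul _ _
      _ ≤ _ := mul_le_mul e1 e2 (abs_nonneg _) (by positivity)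
  have hcs : ∀ k, mu k ^ 2 ≤ ∑ i ∈ Finset.range (mm k), (ss k i) ^ 2 := by
    intro k
    rw [sum_ss_sq k (mm k) le_rfl]
    unfold mu
    have h1 := kap_nonneg k
    have h2 := kap_le_one k
    have h3 : (0 : ℝ) ≤ (2 ^ k) ^ 2 := by positivity
    have h4 : kap k ^ 2 ≤ kap k := by nlinarith
    calc (2 ^ k * kap k) ^ 2 = (2 ^ k) ^ 2 * kap k ^ 2 := by ring
      _ ≤ (2 ^ k) ^ 2 * kap k := mul_le_mul_of_nonneg_left h4 h3
  have hlow : ∀ k, -C ≤ 2 ^ k * hk k := by
    intro k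
    obtain ⟨p, hp⟩ := exists_data (ss k) (mm k) (fun i hi => ss_zero k i hi) (mu k)
      (1 + (1 / 2) ^ k) ((1 / 2) ^ k)
    have h1 := rel_data h (PP.pos k) hp (mm k) (fun i hi => ss_zero k i hi) Q hQ
    rw [sum_ss_mul k (sg w) (mm k) le_rfl] at h1
    have h2 := hCk 1 (by simp) k
    rw [one_mul, one_mul] at h2
    have h3 := hcs k
    have h4 := le_abs_self (a * b - Q)
    have h5 : 2 ^ k * hk k = 2 * (2 ^ k * ∑ i ∈ Finset.range (mm k), ee i * sg w i) -
        mu k * (a + b) := by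
      show 2 ^ k * (2 * (∑ i ∈ Finset.range (mm k), ee i * sg w i) - kap k * (a + b)) = _
      unfold mu
      ring
    rw [h5]
    show -(|a * b - Q| + (|t| + 2) * (|r| + 1)) ≤ _
    nlinarith
  have hup : ∀ k, 2 ^ k * hk k ≤ C := by
    intro k
    obtain ⟨p, hp⟩ := exists_data (fun i => -ss k i) (mm k)
      (fun i hi => by show -ss k i = 0; rw [ss_zero k i hi, neg_zero]) (-mu k)
      (-(1 + (1 / 2) ^ k)) (-(1 / 2) ^ k)
    have h1 := rel_data h (PP.neg k) hp (mm k)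
      (fun i hi => by show -ss k i = 0; rw [ss_zero k i hi, neg_zero]) Q hQ
    simp only [neg_mul, Finset.sum_neg_distrib, neg_sq] at h1
    rw [sum_ss_mul k (sg w) (mm k) le_rfl] at h1
    have h2 := hCk (-1) (by simp) k
    have h3 := hcs k
    have h4 := le_abs_self (a * b - Q)
    have h5 : 2 ^ k * hk k = 2 * (2 ^ k * ∑ i ∈ Finset.range (mm k), ee i * sg w i) -
        mu k * (a + b) := by
      show 2 ^ k * (2 * (∑ i ∈ Finset.range (mm k), ee i * sg w i) - kap k * (a + b)) = _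
      unfold mu
      ring
    rw [h5]
    show _ ≤ |a * b - Q| + (|t| + 2) * (|r| + 1)
    nlinarith
  have hCdiv : Tendsto (fun k : ℕ => C / 2 ^ k) atTop (𝓝 0) :=
    two_pow_tendsto.const_div_atTop C
  have g1 : 2 * E - 1 * (a + b) ≤ 0 := by
    apply le_of_tendsto_of_tendsto hk_lim hCdiv
    filter_upwards with k
    rw [le_div_iff₀ (by positivity)]
    have := hup k
    linarith
  have g2 : 0 ≤ 2 * E - 1 * (a + b) := by
    have := hCdiv.neg
    rw [neg_zero] at this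
    apply le_of_tendsto_of_tendsto this hk_lim
    filter_upwards with k
    rw [neg_le, le_div_iff₀ (by positivity)]
    have := hlow k
    linarith
  linarith

end Pool.Agent.H28.Sum
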