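import Pool.Agent.H28.Sum.Vec

/-!
The monotone seed set.
-/

set_option autoImplicit false

namespace Pool.Agent.H28.Sum

open Filter Topology

/-- the coordinates of an element -/
def HasData (w : X × (X →L[ℝ] ℝ)) (s : ℕ → ℝ) (a t r : ℝ) : Prop :=
  InN w ∧ (∀ i, sg w i = s i) ∧ w.1.2.1 = a ∧ be w.2 = a ∧ w.1.2.2 = t ∧ rr w.2 = r

/-- the admissible coordinates -/
inductive PP : (ℕ → ℝ) → ℝ → ℝ → ℝ → Prop
  | zero (t : ℝ) (h0 : -1 ≤ t) (h1 : t ≤ 1) : PP (fun _ => 0) 0 t 0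
  | pos (k : ℕ) : PP (ss k) (mu k) (1 + (1 / 2) ^ k) ((1 / 2) ^ k)
  | neg (k : ℕ) : PP (fun i => -ss k i) (-mu k) (-(1 + (1 / 2) ^ k)) (-(1 / 2) ^ k)

/-- the seed set -/
def T0 : Set (X × (X →L[ℝ] ℝ)) := {w | ∃ s a t r, PP s a t r ∧ HasData w s a t r}

theorem PP.fin {s : ℕ → ℝ} {a t r : ℝ} (h : PP s a t r) :
    ∃ M0 : ℕ, ∀ M, M0 ≤ M → (∀ i, M ≤ i → s i = 0) ∧ ∑ i ∈ Finset.range M, s i * ee i = a ∧
      ∑ i ∈ Finset.range M, (s i) ^ 2 ≤ a ^ 2 + r ^ 2 / 16 := by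
  cases h with
  | zero t h0 h1 =>
    refine ⟨0, fun M _ => ⟨fun _ _ => rfl, by simp, by simp⟩⟩
  | pos k =>
    refine ⟨mm k, fun M hM => ⟨fun i hi => ss_zero k i (hM.trans hi), sum_ss_ee k M hM,
      ss_defect k M hM⟩⟩
  | neg k =>
    refine ⟨mm k, fun M hM => ⟨fun i hi => ?_, ?_, ?_⟩⟩
    · show -ss k i = 0
      rw [ss_zero k i (hM.trans hi), neg_zero]
    · simp only [neg_mul, Finset.sum_neg_distrib]
      rw [sum_ss_ee k M hM]
    · simp only [neg_sq]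
      exact ss_defect k M hM

theorem half_pow_pos (k : ℕ) : (0 : ℝ) < (1 / 2 : ℝ) ^ k := by positivity

theorem half_pow_diff (k j : ℕ) (h : k ≠ j) :
    (((1 / 2 : ℝ) ^ k) ^ 2 + ((1 / 2 : ℝ) ^ j) ^ 2) / 8 ≤
      ((1 / 2 : ℝ) ^ k - (1 / 2 : ℝ) ^ j) ^ 2 := by
  have key : ∀ a b : ℕ, a < b → (((1 / 2 : ℝ) ^ a) ^ 2 + ((1 / 2 : ℝ) ^ b) ^ 2) / 8 ≤
      ((1 / 2 : ℝ) ^ a - (1 / 2 : ℝ) ^ b) ^ 2 := by
    intro a b hab
    have h1 : (1 / 2 : ℝ) ^ b ≤ (1 / 2 : ℝ) ^ a / 2 := by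
      have : (1 / 2 : ℝ) ^ b ≤ (1 / 2 : ℝ) ^ (a + 1) :=
        pow_le_pow_of_le_one (by norm_num) (by norm_num) hab
      rw [pow_succ] at this
      linarith
    have h2 := half_pow_pos a
    have h3 := half_pow_pos b
    nlinarith
  rcases lt_or_gt_of_ne h with h | h
  · exact key k j h
  · have := key j k h
    nlinarith

/-- pairs of admissible coordinates are either equal or well separated -/
theorem PP.sep {s s' : ℕ → ℝ} {a a' t t' r r' : ℝ} (h : PP s a t r) (h' : PP s' a' t' r') :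
    (s = s' ∧ a = a' ∧ r = r') ∨ (r ^ 2 + r' ^ 2) / 8 ≤ (t - t') * (r - r') := by
  cases h with
  | zero t h0 h1 =>
    cases h' with
    | zero t' h0' h1' => left; exact ⟨rfl, rfl, rfl⟩
    | pos k =>
      right
      have := half_pow_pos k
      nlinarith
    | neg k =>
      right
      have := half_pow_pos k
      nlinarith
  | pos k =>
    have hk := half_pow_pos k
    cases h' with
    | zero t' h0' h1' => right; nlinarith
    | pos j =>
      by_cases hkj : k = j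
      · subst hkj
        left
        exact ⟨rfl, rfl, rfl⟩
      · right
        have := half_pow_diff k j hkj
        nlinarith
    | neg j =>
      right
      have hj := half_pow_pos j
      nlinarith
  | neg k =>
    have hk := half_pow_pos k
    cases h' with
    | zero t' h0' h1' => right; nlinarith
    | pos j =>
      right
      have hj := half_pow_pos j
      nlinarith
    | neg j =>
      by_cases hkj : k = j
      · subst hkj
        left
        exact ⟨rfl, rfl, rfl⟩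
      · right
        have := half_pow_diff k j hkj
        nlinarith

theorem PP.ineq {s s' : ℕ → ℝ} {a a' t t' r r' : ℝ} (h : PP s a t r) (h' : PP s' a' t' r')
    (Q : ℝ) (hQ : HasSum (fun i => (s i - s' i) ^ 2) Q) :
    Q ≤ (a - a') ^ 2 + (t - t') * (r - r') := by
  obtain ⟨M1, hM1⟩ := h.fin
  obtain ⟨M2, hM2⟩ := h'.fin
  obtain ⟨z1, e1, q1⟩ := hM1 (max M1 M2) (le_max_left _ _)
  obtain ⟨z2, e2, q2⟩ := hM2 (max M1 M2) (le_max_right _ _)
  set M := max M1 M2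
  have hQ2 : HasSum (fun i => (s i - s' i) ^ 2) (∑ i ∈ Finset.range M, (s i - s' i) ^ 2) := by
    apply hasSum_sum_of_ne_finset_zero
    intro i hi
    rw [Finset.mem_range, not_lt] at hi
    rw [z1 i hi, z2 i hi]
    simp
  have hQ3 := hQ.unique hQ2
  rcases h.sep h' with ⟨rfl, rfl, rfl⟩ | hsep
  · rw [hQ3]
    simp
  · rw [hQ3]
    have hcs := Finset.sum_mul_sq_le_sq_mul_sq (Finset.range M) (fun i => s i + s' i) ee
    have h3 : ∑ i ∈ Finset.range M, (s i + s' i) * ee i = a + a' := by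
      rw [← e1, ← e2, ← Finset.sum_add_distrib]
      exact Finset.sum_congr rfl (fun i _ => by ring)
    rw [h3] at hcs
    have h4 : ∑ i ∈ Finset.range M, (ee i) ^ 2 ≤ 1 := by
      rw [ee_sq_sum]
      have : (0 : ℝ) ≤ 1 / ((M : ℝ) + 1) := by positivity
      linarith
    have h5 : 0 ≤ ∑ i ∈ Finset.range M, (s i + s' i) ^ 2 :=
      Finset.sum_nonneg (fun i _ => sq_nonneg _)
    have h6 : (a + a') ^ 2 ≤ ∑ i ∈ Finset.range M, (s i + s' i) ^ 2 := by
      calc (a + a') ^ 2 ≤ _ := hcs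
        _ ≤ (∑ i ∈ Finset.range M, (s i + s' i) ^ 2) * 1 := mul_le_mul_of_nonneg_left h4 h5
        _ = _ := mul_one _
    have h7 : ∑ i ∈ Finset.range M, (s i - s' i) ^ 2 + ∑ i ∈ Finset.range M, (s i + s' i) ^ 2 =
        2 * ∑ i ∈ Finset.range M, (s i) ^ 2 + 2 * ∑ i ∈ Finset.range M, (s' i) ^ 2 := by
      rw [← Finset.sum_add_distrib, Finset.mul_sum, Finset.mul_sum, ← Finset.sum_add_distrib]
      exact Finset.sum_congr rfl (fun i _ => by ring)
    nlinarith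

/-- the pairing of a difference, in coordinates -/
theorem rel_form {w w' : X × (X →L[ℝ] ℝ)} (h : InN w) (h' : InN w') :
    HasSum (fun i => (sg w i - sg w' i) ^ 2)
      ((w.1.2.1 - w'.1.2.1) * (be w.2 - be w'.2) + (w.1.2.2 - w'.1.2.2) * (rr w.2 - rr w'.2) -
        (w.2 - w'.2) (w.1 - w'.1)) := by
  have h1 := (pairing (w - w') (InN_sub h h')).1
  have e : (fun i => (sg w i - sg w' i) ^ 2) = fun i => (sg (w - w') i) ^ 2 := by
    funext i
    rw [sg_sub]
  rw [e]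
  exact h1

theorem T0_mono : ∀ w ∈ T0, ∀ w' ∈ T0, 0 ≤ (w.2 - w'.2) (w.1 - w'.1) := by
  rintro w ⟨s, a, t, r, hP, hN, hs, ha, hb, ht, hr⟩ w' ⟨s', a', t', r', hP', hN', hs', ha', hb',
    ht', hr'⟩
  have h1 := rel_form hN hN'
  simp_rw [hs, hs'] at h1
  have h2 := hP.ineq hP' _ h1
  rw [ha, hb, ht, hr, ha', hb', ht', hr'] at h2
  nlinarith

end Pool.Agent.H28.Sum
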