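import Pool.Agent.H28.Sum.Polar

/-!
Elements related to the seed set in the open slab, and the maximal extension.
-/

set_option autoImplicit false

namespace Pool.Agent.H28.Sum

open Filter Topology

theorem Rel.slab {w : X × (X →L[ℝ] ℝ)} (h : Rel w) (ht : |w.1.2.2| < 1) :
    HasData w (fun _ => 0) 0 w.1.2.2 0 := by
  have hN := h.inN
  have hQ := (pairing w hN).1
  have habs := (pairing w hN).2
  have hsum := h.sum_eq
  have hE := (summable_sg_ee hN).hasSum
  set Q := w.1.2.1 * be w.2 + w.1.2.2 * rr w.2 - w.2 w.1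
  set E := ∑' i, sg w i * ee i
  obtain ⟨p1, hp1⟩ := exists_data (fun _ => 0) 0 (fun _ _ => rfl) 0 1 0
  obtain ⟨p2, hp2⟩ := exists_data (fun _ => 0) 0 (fun _ _ => rfl) 0 (-1) 0
  have r1 := rel_data h (PP.zero 1 (by norm_num) (by norm_num)) hp1 0 (fun _ _ => rfl) Q hQ
  have r2 := rel_data h (PP.zero (-1) (by norm_num) (by norm_num)) hp2 0 (fun _ _ => rfl) Q hQ
  simp only [Finset.range_zero, Finset.sum_empty, mul_zero, sub_zero, add_zero] at r1 r2
  have h1 : HasSum (fun i => (sg w i - E * ee i) ^ 2) (Q - 2 * E * E + E ^ 2 * 1) := by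
    have h2 := (hQ.sub (hE.mul_left (2 * E))).add (ee_hasSum.mul_left (E ^ 2))
    have e : (fun i => (sg w i - E * ee i) ^ 2) =
        fun i => (sg w i) ^ 2 - 2 * E * (sg w i * ee i) + E ^ 2 * (ee i) ^ 2 := by
      funext i
      ring
    rw [e]
    exact h2
  have h3 : 0 ≤ Q - 2 * E * E + E ^ 2 * 1 := h1.nonneg (fun i => sq_nonneg _)
  have ht' := abs_lt.1 ht
  set a := w.1.2.1 with ha
  set b := be w.2 with hb
  set t := w.1.2.2
  set r := rr w.2 with hr
  have h4 : a * b ≤ E ^ 2 := by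
    have e0 : (a + b) ^ 2 = 4 * E ^ 2 := by
      rw [hsum]
      ring
    nlinarith [sq_nonneg (a - b)]
  have hr0 : r = 0 := by
    have e1 : 0 ≤ (t - 1) * r := by nlinarith
    have e2 : 0 ≤ (t - -1) * r := by nlinarith
    have e3 : r ≤ 0 := by
      by_contra hcon
      push Not at hcon
      nlinarith [mul_pos (by linarith : (0 : ℝ) < 1 - t) hcon]
    have e4 : 0 ≤ r := by
      by_contra hcon
      push Not at hcon
      nlinarith [mul_pos (by linarith : (0 : ℝ) < 1 + t) (by linarith : (0 : ℝ) < -r)]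
    linarith
  rw [hr0, mul_zero, add_zero] at r1
  have h5 : Q - 2 * E * E + E ^ 2 * 1 = 0 := by nlinarith
  rw [h5] at h1
  have h6 := (hasSum_zero_iff_of_nonneg (fun i => sq_nonneg _)).1 h1
  have h7 : ∀ i, sg w i = E * ee i := by
    intro i
    have h8 : (sg w i - E * ee i) ^ 2 = 0 := congrFun h6 i
    have h9 := pow_eq_zero_iff (two_ne_zero) |>.1 h8
    linarith
  have hE0 : E = 0 := by
    by_contra hE0
    apply ee_not_summable
    have h8 : Summable (fun i => sg w i) := habs.of_abs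
    have h9 : ee = fun i => E⁻¹ * sg w i := by
      funext i
      rw [h7 i, ← mul_assoc, inv_mul_cancel₀ hE0, one_mul]
    rw [h9]
    exact h8.mul_left _
  have hsg : ∀ i, sg w i = 0 := fun i => by rw [h7 i, hE0, zero_mul]
  rw [hE0] at h5 hsum h4
  have hQ0 : Q = 0 := by linarith
  have hab : a = 0 ∧ b = 0 := by
    have e1 : b = -a := by linarith
    have e2 : 0 ≤ a * b := by linarith
    rw [e1] at e2
    have e3 : a * a = 0 := by nlinarith [mul_self_nonneg a]
    have e4 : a = 0 := mul_self_eq_zero.1 e3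
    exact ⟨e4, by rw [e1, e4, neg_zero]⟩
  exact ⟨hN, hsg, hab.1, hab.2, rfl, hr0⟩

/-- monotone sets -/
def Mono (T : Set (X × (X →L[ℝ] ℝ))) : Prop :=
  ∀ w ∈ T, ∀ w' ∈ T, 0 ≤ (w.2 - w'.2) (w.1 - w'.1)

/-- a maximal monotone extension of the seed set -/
theorem exists_max : ∃ T : Set (X × (X →L[ℝ] ℝ)), T0 ⊆ T ∧ Mono T ∧
    ∀ w, (∀ w' ∈ T, 0 ≤ (w.2 - w'.2) (w.1 - w'.1)) → w ∈ T := by
  obtain ⟨T, hT0, hT⟩ := zorn_subset_nonempty {T | Mono T} (by
    intro c hc hchain hne
    refine ⟨⋃₀ c, ?_, fun s hs => Set.subset_sUnion_of_mem hs⟩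
    rintro w ⟨s, hs, hw⟩ w' ⟨s', hs', hw'⟩
    rcases hchain.total hs hs' with h | h
    · exact hc hs' w (h hw) w' hw'
    · exact hc hs w hw w' (h hw')) T0 T0_mono
  refine ⟨T, hT0, hT.prop, ?_⟩
  intro w hw
  have h1 : Mono (insert w T) := by
    rintro u hu u' hu'
    rcases hu with rfl | hu
    · rcases hu' with rfl | hu'
      · simp
      · exact hw u' hu'
    · rcases hu' with rfl | hu'
      · have h2 := hw u hu
        have e : (u.2 - u'.2) (u.1 - u'.1) = (u'.2 - u.2) (u'.1 - u.1) := by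
          rw [← neg_sub u'.2 u.2, ← neg_sub u'.1 u.1, map_neg]
          simp
        rw [e]
        exact h2
      · exact hT.prop u hu u' hu'
  exact hT.le_of_ge h1 (Set.subset_insert w T) (Set.mem_insert w T)

end Pool.Agent.H28.Sum
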