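import Pool.Agent.H28.Sum.Pair

/-!
A square summable unit vector that is not summable, and its multiples of truncations.
-/

set_option autoImplicit false

namespace Pool.Agent.H28.Sum

open Filter Topology

/-- the unit vector -/
noncomputable def ee (i : ℕ) : ℝ := 1 / Real.sqrt (((i : ℝ) + 1) * ((i : ℝ) + 2))

theorem ee_sq (i : ℕ) : (ee i) ^ 2 = 1 / ((i : ℝ) + 1) - 1 / ((i : ℝ) + 2) := by
  unfold ee
  rw [div_pow, Real.sq_sqrt (by positivity)]
  field_simp
  ring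

theorem ee_pos (i : ℕ) : 0 < ee i := by
  unfold ee
  positivity

theorem ee_le_one (i : ℕ) : ee i ≤ 1 := by
  have h1 := ee_sq i
  have h2 : (1 : ℝ) / ((i : ℝ) + 1) ≤ 1 := by
    rw [div_le_one (by positivity)]
    have : (0 : ℝ) ≤ i := Nat.cast_nonneg i
    linarith
  have h3 : (0 : ℝ) ≤ 1 / ((i : ℝ) + 2) := by positivity
  have h4 := ee_pos i
  nlinarith

theorem ee_sq_sum (m : ℕ) : ∑ i ∈ Finset.range m, (ee i) ^ 2 = 1 - 1 / ((m : ℝ) + 1) := by
  induction m with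
  | zero => simp
  | succ m ih =>
    rw [Finset.sum_range_succ, ih, ee_sq]
    push_cast
    ring

theorem ee_hasSum : HasSum (fun i => (ee i) ^ 2) 1 := by
  rw [hasSum_iff_tendsto_nat_of_nonneg (fun i => sq_nonneg _)]
  simp_rw [ee_sq_sum]
  have h : Tendsto (fun m : ℕ => 1 / ((m : ℝ) + 1)) atTop (𝓝 0) :=
    tendsto_one_div_add_atTop_nhds_zero_nat
  simpa using tendsto_const_nhds.sub h

theorem ee_not_summable : ¬ Summable ee := by
  intro h
  have h1 : ∀ i : ℕ, (1 : ℝ) / (((i + 2 : ℕ) : ℝ)) ≤ ee i := by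
    intro i
    have h2 := ee_pos i
    have h3 : ((1 : ℝ) / (((i + 2 : ℕ) : ℝ))) ^ 2 ≤ (ee i) ^ 2 := by
      unfold ee
      rw [div_pow, div_pow, Real.sq_sqrt (by positivity)]
      apply div_le_div_of_nonneg_left (by positivity) (by positivity)
      push_cast
      nlinarith
    exact le_of_sq_le_sq h3 h2.le
  have h4 : Summable (fun i : ℕ => (1 : ℝ) / (((i + 2 : ℕ) : ℝ))) :=
    Summable.of_nonneg_of_le (fun i => by positivity) h1 h
  have h5 := (summable_nat_add_iff (f := fun n : ℕ => (1 : ℝ) / (n : ℝ)) 2).1 h4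
  exact Real.not_summable_one_div_natCast h5

/-- the supports -/
def mm (k : ℕ) : ℕ := 16 ^ (k + 1)

/-- the multiples of the truncations -/
noncomputable def ss (k i : ℕ) : ℝ := if i < mm k then 2 ^ k * ee i else 0

/-- inner products -/
noncomputable def kap (k : ℕ) : ℝ := 1 - 1 / ((mm k : ℝ) + 1)

noncomputable def mu (k : ℕ) : ℝ := 2 ^ k * kap k

theorem ss_zero (k i : ℕ) (h : mm k ≤ i) : ss k i = 0 := by
  unfold ss
  rw [if_neg (by omega)]

theorem sum_ss_mul (k : ℕ) (c : ℕ → ℝ) (M : ℕ) (hM : mm k ≤ M) :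
    ∑ i ∈ Finset.range M, ss k i * c i = 2 ^ k * ∑ i ∈ Finset.range (mm k), ee i * c i := by
  rw [Finset.mul_sum]
  symm
  have h1 : ∀ i ∈ Finset.range (mm k), (2 : ℝ) ^ k * (ee i * c i) = ss k i * c i := by
    intro i hi
    unfold ss
    rw [if_pos (Finset.mem_range.1 hi)]
    ring
  rw [Finset.sum_congr rfl h1]
  apply Finset.sum_subset
  · intro i hi
    rw [Finset.mem_range] at hi ⊢
    omega
  · intro i _ hi
    rw [Finset.mem_range, not_lt] at hi
    rw [ss_zero k i hi, zero_mul]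

theorem sum_ss_ee (k M : ℕ) (hM : mm k ≤ M) :
    ∑ i ∈ Finset.range M, ss k i * ee i = mu k := by
  rw [sum_ss_mul k ee M hM]
  unfold mu kap
  rw [← ee_sq_sum]
  congr 1
  apply Finset.sum_congr rfl
  intro i _
  ring

theorem sum_ss_sq (k M : ℕ) (hM : mm k ≤ M) :
    ∑ i ∈ Finset.range M, (ss k i) ^ 2 = (2 ^ k) ^ 2 * kap k := by
  have h1 : ∑ i ∈ Finset.range M, (ss k i) ^ 2 = ∑ i ∈ Finset.range M, ss k i * ss k i :=
    Finset.sum_congr rfl (fun i _ => by ring)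
  rw [h1, sum_ss_mul k (ss k) M hM]
  have h2 : ∑ i ∈ Finset.range (mm k), ee i * ss k i =
      2 ^ k * ∑ i ∈ Finset.range (mm k), (ee i) ^ 2 := by
    rw [Finset.mul_sum]
    apply Finset.sum_congr rfl
    intro i hi
    unfold ss
    rw [if_pos (Finset.mem_range.1 hi)]
    ring
  rw [h2, ee_sq_sum]
  unfold kap
  ring

theorem kap_nonneg (k : ℕ) : 0 ≤ kap k := by
  unfold kap
  have : (1 : ℝ) / ((mm k : ℝ) + 1) ≤ 1 := by
    rw [div_le_one (by positivity)]
    have : (0 : ℝ) ≤ mm k := Nat.cast_nonneg _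
    linarith
  linarith

theorem kap_le_one (k : ℕ) : kap k ≤ 1 := by
  unfold kap
  have : (0 : ℝ) ≤ 1 / ((mm k : ℝ) + 1) := by positivity
  linarith

/-- the defect is small -/
theorem ss_defect (k M : ℕ) (hM : mm k ≤ M) :
    ∑ i ∈ Finset.range M, (ss k i) ^ 2 ≤ (mu k) ^ 2 + ((1 / 2 : ℝ) ^ k) ^ 2 / 16 := by
  rw [sum_ss_sq k M hM]
  unfold mu
  have h1 := kap_nonneg k
  have h2 := kap_le_one k
  have h3 : 1 - kap k ≤ 1 / (16 ^ (k + 1) : ℝ) := by
    unfold kap mm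
    push_cast
    have : (1 : ℝ) / (16 ^ (k + 1) + 1) ≤ 1 / 16 ^ (k + 1) := by
      apply one_div_le_one_div_of_le (by positivity)
      linarith
    linarith
  have h4 : ((2 : ℝ) ^ k) ^ 2 * (1 / (16 ^ (k + 1) : ℝ)) = ((1 / 2 : ℝ) ^ k) ^ 2 / 16 := by
    have e1 : (16 : ℝ) ^ (k + 1) = 16 * ((2 ^ k) ^ 2 * (2 ^ k) ^ 2) := by
      rw [pow_succ]
      have : (16 : ℝ) ^ k = (2 ^ k) ^ 2 * (2 ^ k) ^ 2 := by
        rw [show (16 : ℝ) = 2 ^ 4 by norm_num, ← pow_mul, ← pow_mul, ← pow_add]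
        congr 1
        ring
      rw [this]
      ring
    rw [e1, div_pow, one_pow]
    have : (2 : ℝ) ^ k ≠ 0 := by positivity
    field_simp
  have h5 : ((2 : ℝ) ^ k) ^ 2 * (kap k * (1 - kap k)) ≤ ((2 : ℝ) ^ k) ^ 2 * (1 / (16 ^ (k + 1) : ℝ)) := by
    apply mul_le_mul_of_nonneg_left _ (by positivity)
    nlinarith
  rw [h4] at h5
  nlinarith

theorem kap_tendsto : Tendsto kap atTop (𝓝 1) := by
  have h : Tendsto (fun m : ℕ => 1 / ((m : ℝ) + 1)) atTop (𝓝 0) :=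
    tendsto_one_div_add_atTop_nhds_zero_nat
  have h2 : Tendsto mm atTop atTop := by
    unfold mm
    exact (tendsto_pow_atTop_atTop_of_one_lt (by norm_num : 1 < 16)).comp (tendsto_add_atTop_nat 1)
  have h3 := h.comp h2
  have h4 : Tendsto (fun k => 1 - (1 / ((mm k : ℝ) + 1))) atTop (𝓝 (1 - 0)) :=
    tendsto_const_nhds.sub h3
  rw [sub_zero] at h4
  exact h4

theorem mm_tendsto : Tendsto mm atTop atTop := by
  unfold mm
  exact (tendsto_pow_atTop_atTop_of_one_lt (by norm_num : 1 < 16)).comp (tendsto_add_atTop_nat 1)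

end Pool.Agent.H28.Sum
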